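import Mathlib

set_option autoImplicit false

namespace Pool.Agent.H835Z.Ksd

/-- `C_p(X)`: continuous real functions on `X`, a subspace of the product `X → ℝ`
(topology and uniformity of pointwise convergence). -/
abbrev Cp (X : Type) [TopologicalSpace X] : Type := {f : X → ℝ // Continuous f}

/-- `X` embeds in a compact Hausdorff space as a countable intersection of countable unions of
compact sets. -/
def IsKSigmaDelta (X : Type) [TopologicalSpace X] : Prop :=
  ∃ (K : Type) (_ : TopologicalSpace K) (_ : CompactSpace K) (_ : T2Space K) (e : X → K),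
    Topology.IsEmbedding e ∧
      ∃ C : ℕ → ℕ → Set K, (∀ n m, IsCompact (C n m)) ∧ Set.range e = ⋂ n, ⋃ m, C n m

end Pool.Agent.H835Z.Ksd
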