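import Mathlib
import Pool.Agent.H835Z.KsdDefs
import Pool.Agent.Helper102.KsdL

set_option autoImplicit false

namespace Pool.Agent.H835Z.Ksd

open Topology Filter Set

variable {X Y K : Type} [TopologicalSpace X] [TopologicalSpace Y] [TopologicalSpace K]

/-- bump functions on a completely regular space -/
lemma exists_bump [T35Space X] (G : Finset X) (S : Set X) (hS : IsClosed S)
    (hGS : ∀ x ∈ G, x ∉ S) :
    ∃ φ : X → ℝ, Continuous φ ∧ (∀ x ∈ G, φ x = 0) ∧ (∀ x ∈ S, φ x = 1) := by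
  classical
  induction G using Finset.induction_on with
  | empty => exact ⟨fun _ => 1, continuous_const, by simp, by simp⟩
  | insert a G ha ih =>
    obtain ⟨φ, hφ, h0, h1⟩ := ih (fun x hx => hGS x (Finset.mem_insert_of_mem hx))
    obtain ⟨ψ, hψ, hψ0, hψ1⟩ := CompletelyRegularSpace.completely_regular a S hS
      (hGS a (Finset.mem_insert_self _ _))
    refine ⟨fun x => φ x * (ψ x : ℝ), hφ.mul (continuous_subtype_val.comp hψ), ?_, ?_⟩
    · intro x hx
      rcases Finset.mem_insert.1 hx with rfl | hx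
      · simp [hψ0]
      · simp [h0 x hx]
    · intro x hx
      have := hψ1 hx
      simp only [Pi.one_apply] at this
      simp [h1 x hx, this]

/-- finite interpolation -/
lemma exists_interp [T35Space K] (S : Finset K) (v : K → ℝ) :
    ∃ h : K → ℝ, Continuous h ∧ ∀ z ∈ S, h z = v z := by
  classical
  induction S using Finset.induction_on with
  | empty => exact ⟨fun _ => 0, continuous_const, by simp⟩
  | insert a S ha ih =>
    obtain ⟨h, hh, hv⟩ := ih
    obtain ⟨φ, hφ, h0, h1⟩ := exists_bump S {a} isClosed_singleton (by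
      intro x hx hxa
      rw [Set.mem_singleton_iff] at hxa
      exact ha (hxa ▸ hx))
    refine ⟨fun z => h z + (v a - h a) * φ z, hh.add (continuous_const.mul hφ), ?_⟩
    intro z hz
    rcases Finset.mem_insert.1 hz with rfl | hz
    · simp [h1 z rfl]
    · simp [h0 z hz, hv z hz]

/-- basic neighbourhoods in `Cp` -/
lemma nhds_Cp (g : Cp Y) (N : Set (Cp Y)) (hN : N ∈ 𝓝 g) :
    ∃ (F : Finset Y) (η : ℝ), 0 < η ∧ ∀ g' : Cp Y, (∀ y ∈ F, |g'.1 y - g.1 y| < η) → g' ∈ N := by
  classical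
  rw [nhds_induced, Filter.mem_comap] at hN
  obtain ⟨M, hM, hMN⟩ := hN
  rw [nhds_pi, Filter.mem_pi] at hM
  obtain ⟨I, hI, t, ht, htM⟩ := hM
  have h1 : ∀ y, ∃ η : ℝ, 0 < η ∧ ∀ r : ℝ, |r - g.1 y| < η → r ∈ t y := by
    intro y
    obtain ⟨η, hη, hb⟩ := Metric.mem_nhds_iff.1 (ht y)
    exact ⟨η, hη, fun r hr => hb (by simpa [Real.dist_eq] using hr)⟩
  choose η hη hη' using h1
  by_cases hne : hI.toFinset.Nonempty
  · refine ⟨hI.toFinset, hI.toFinset.inf' hne η, ?_, ?_⟩
    · rw [Finset.lt_inf'_iff]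
      exact fun y _ => hη y
    · intro g' hg'
      apply hMN
      apply htM
      intro y hy
      have hy' : y ∈ hI.toFinset := hI.mem_toFinset.2 hy
      exact hη' y _ ((hg' y hy').trans_le (Finset.inf'_le _ hy'))
  · refine ⟨∅, 1, one_pos, fun g' _ => ?_⟩
    apply hMN
    apply htM
    intro y hy
    exact absurd ⟨y, hI.mem_toFinset.2 hy⟩ hne

lemma box_mem_nhds (g : Cp Y) {n : ℕ} (y : Fin n → Y) (δ : ℝ) (hδ : 0 < δ) :
    {g' : Cp Y | ∀ i, |g'.1 (y i) - g.1 (y i)| < δ} ∈ 𝓝 g := by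
  have : {g' : Cp Y | ∀ i, |g'.1 (y i) - g.1 (y i)| < δ} =
      ⋂ i, {g' : Cp Y | |g'.1 (y i) - g.1 (y i)| < δ} := by ext; simp
  rw [this]
  refine (isOpen_iInter_of_finite fun i => ?_).mem_nhds ?_
  · refine isOpen_lt ?_ continuous_const
    exact (((continuous_apply (y i)).comp continuous_subtype_val).sub continuous_const).abs
  · simp [hδ]

/-- restriction of a continuous function on `K` -/
def res {e : Y → K} (he : Continuous e) (h : Cp K) : Cp Y := ⟨fun y => h.1 (e y), h.2.comp he⟩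

/-- witness with points of `K`, tested on functions from `K` -/
def WitK {e : Y → K} (he : Continuous e) (D : Cp Y × Cp Y → Cp X) (δ : ℝ) {n : ℕ} (x : X)
    (b : Fin n → K) : Prop :=
  ∀ h h' : Cp K, (∀ i, |h.1 (b i)| < δ) → |(D (res he h, res he h')).1 x| ≤ 1

/-- witness with points of `Y`, tested on all continuous functions on `Y` -/
def WitY (D : Cp Y × Cp Y → Cp X) (δ : ℝ) {n : ℕ} (x : X) (b : Fin n → Y) : Prop :=
  ∀ g g' : Cp Y, (∀ i, |g.1 (b i)| < δ) → |(D (g, g')).1 x| ≤ 1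

/-- points with a witness of size at most `n` inside `A` -/
def Cl {e : Y → K} (he : Continuous e) (D : Cp Y × Cp Y → Cp X) (δ : ℝ) (n : ℕ) (A : Set K) :
    Set X :=
  {x | ∃ n' ≤ n, ∃ b : Fin n' → K, (∀ i, b i ∈ A) ∧ WitK he D δ x b}

lemma isClosed_Cl [CompactSpace K] {e : Y → K} (he : Continuous e) (D : Cp Y × Cp Y → Cp X)
    (δ : ℝ) (n : ℕ) (A : Set K) (hA : IsClosed A) : IsClosed (Cl he D δ n A) := by
  have h1 : Cl he D δ n A = ⋃ n' ∈ Set.Iic n,
      Prod.fst '' {p : X × (Fin n' → K) | (∀ i, p.2 i ∈ A) ∧ WitK he D δ p.1 p.2} := by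
    ext x
    simp only [Cl, Set.mem_setOf_eq, Set.mem_iUnion, Set.mem_Iic, Set.mem_image, Prod.exists,
      exists_and_right, exists_eq_right, exists_prop]
  rw [h1]
  refine (Set.finite_Iic n).isClosed_biUnion fun n' _ => ?_
  apply isClosedMap_fst_of_compactSpace
  apply IsClosed.inter
  · have : {p : X × (Fin n' → K) | ∀ i, p.2 i ∈ A} = ⋂ i, {p : X × (Fin n' → K) | p.2 i ∈ A} := by
      ext; simp
    show IsClosed {p : X × (Fin n' → K) | ∀ i, p.2 i ∈ A}
    rw [this]
    exact isClosed_iInter fun i => hA.preimage ((continuous_apply i).comp continuous_snd)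
  · show IsClosed {p : X × (Fin n' → K) | WitK he D δ p.1 p.2}
    have : {p : X × (Fin n' → K) | WitK he D δ p.1 p.2} = ⋂ h : Cp K, ⋂ h' : Cp K,
        ((⋃ i, {p : X × (Fin n' → K) | δ ≤ |h.1 (p.2 i)|}) ∪
          {p : X × (Fin n' → K) | |(D (res he h, res he h')).1 p.1| ≤ 1}) := by
      ext p
      simp only [WitK, Set.mem_setOf_eq, Set.mem_iInter, Set.mem_union, Set.mem_iUnion]
      refine forall_congr' fun h => forall_congr' fun h' => ?_
      constructor
      · intro H
        by_cases hc : ∀ i, |h.1 (p.2 i)| < δ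
        · exact Or.inr (H hc)
        · push Not at hc
          exact Or.inl hc
      · rintro (⟨i, hi⟩ | H) hc
        · exact absurd (hc i) (not_lt.2 hi)
        · exact H
    rw [this]
    refine isClosed_iInter fun h => isClosed_iInter fun h' => IsClosed.union ?_ ?_
    · refine isClosed_iUnion_of_finite fun i => isClosed_le continuous_const ?_
      exact (h.2.comp ((continuous_apply i).comp continuous_snd)).abs
    · exact isClosed_le (((D (res he h, res he h')).2.comp continuous_fst).abs) continuous_const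

lemma mem_Cl_of_WitY {e : Y → K} (he : Continuous e) (D : Cp Y × Cp Y → Cp X)
    (δ : ℝ) (n : ℕ) (A : Set K) (x : X) (n' : ℕ) (hn : n' ≤ n) (b : Fin n' → Y)
    (hb : ∀ i, e (b i) ∈ A) (hw : WitY D δ x b) : x ∈ Cl he D δ n A :=
  ⟨n', hn, fun i => e (b i), hb, fun h h' hh => hw (res he h) (res he h') hh⟩

lemma WitY_of_mem_Cl [T35Space K] {e : Y → K} (he : Continuous e) (hinj : Function.Injective e)
    (D : Cp Y × Cp Y → Cp X) (hD : Continuous D) (δ : ℝ) (hδ : 0 < δ) (n : ℕ) (A : Set K) (x : X)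
    (hx : x ∈ Cl he D δ n A) :
    ∃ n' ≤ n, ∃ b : Fin n' → Y, (∀ i, e (b i) ∈ A) ∧ WitY D δ x b := by
  classical
  obtain ⟨n', hn', b, hbA, hw⟩ := hx
  let I : Finset (Fin n') := Finset.univ.filter fun i => b i ∈ Set.range e
  have hI : ∀ i : I, ∃ y, e y = b i := fun i => (Finset.mem_filter.1 i.2).2
  choose c hc using hI
  have hcard : I.card ≤ n := by
    refine le_trans ?_ hn'
    simpa using Finset.card_le_univ I
  refine ⟨I.card, hcard, fun j => c (I.equivFin.symm j), fun j => ?_, ?_⟩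
  · rw [hc]; exact hbA _
  · intro g g' hg
    by_contra hcon
    push Not at hcon
    have hopen : IsOpen {p : Cp Y × Cp Y | 1 < |(D p).1 x|} :=
      isOpen_lt continuous_const
        (((continuous_apply x).comp (continuous_subtype_val.comp hD)).abs)
    have hmem := hopen.mem_nhds (x := (g, g')) hcon
    rw [nhds_prod_eq, Filter.mem_prod_iff] at hmem
    obtain ⟨N1, hN1, N2, hN2, hN⟩ := hmem
    obtain ⟨F1, η1, hη1, hF1⟩ := nhds_Cp g N1 hN1
    obtain ⟨F2, η2, hη2, hF2⟩ := nhds_Cp g' N2 hN2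
    let v : K → ℝ := fun z => if hz : z ∈ Set.range e then g.1 hz.choose else 0
    let v' : K → ℝ := fun z => if hz : z ∈ Set.range e then g'.1 hz.choose else 0
    have hv : ∀ y, v (e y) = g.1 y := by
      intro y
      have hz : e y ∈ Set.range e := ⟨y, rfl⟩
      simp only [v, dif_pos hz]
      rw [hinj hz.choose_spec]
    have hv' : ∀ y, v' (e y) = g'.1 y := by
      intro y
      have hz : e y ∈ Set.range e := ⟨y, rfl⟩
      simp only [v', dif_pos hz]
      rw [hinj hz.choose_spec]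
    obtain ⟨h, hh, hhv⟩ := exists_interp (F1.image e ∪ Finset.univ.image b) v
    obtain ⟨h', hh', hhv'⟩ := exists_interp (F2.image e) v'
    have h1 : res he ⟨h, hh⟩ ∈ N1 := by
      apply hF1
      intro y hy
      have : h (e y) = g.1 y := by
        rw [hhv _ (Finset.mem_union_left _ (Finset.mem_image_of_mem _ hy)), hv]
      simp [res, this, hη1]
    have h2 : res he ⟨h', hh'⟩ ∈ N2 := by
      apply hF2
      intro y hy
      have : h' (e y) = g'.1 y := by
        rw [hhv' _ (Finset.mem_image_of_mem _ hy), hv']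
      simp [res, this, hη2]
    have h3 := hN (Set.mk_mem_prod h1 h2)
    have h4 := hw ⟨h, hh⟩ ⟨h', hh'⟩ (by
      intro i
      show |h (b i)| < δ
      rw [hhv _ (Finset.mem_union_right _ (Finset.mem_image_of_mem _ (Finset.mem_univ i)))]
      by_cases hi : b i ∈ Set.range e
      · have hiI : i ∈ I := Finset.mem_filter.2 ⟨Finset.mem_univ _, hi⟩
        have h5 := hg (I.equivFin ⟨i, hiI⟩)
        simp only [Equiv.symm_apply_apply] at h5
        have h6 := hc ⟨i, hiI⟩
        simp only at h6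
        rw [← h6, hv]
        exact h5
      · simp only [v, dif_neg hi]
        simpa using hδ)
    exact absurd h4 (not_le.2 h3)

/-- the final step of Okunev's argument, for ultrafilters -/
lemma converge_of_bound [T35Space X] (Ψ : Cp Y → Cp X) (g0 : Cp Y)
    (hop : ∀ N ∈ 𝓝 g0, Ψ '' N ∈ 𝓝 (Ψ g0)) (u : Ultrafilter X) {n : ℕ} (y : Fin n → Y) (δ : ℝ)
    (hδ : 0 < δ) (c : ℝ)
    (hb : ∀ g : Cp Y, (∀ i, |g.1 (y i) - g0.1 (y i)| < δ) →
      ∀ᶠ x in (u : Filter X), |(Ψ g).1 x - (Ψ g0).1 x| ≤ c) :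
    ∃ x0, (u : Filter X) ≤ 𝓝 x0 := by
  classical
  obtain ⟨G, η, hη, hG⟩ := nhds_Cp (Ψ g0) _ (hop _ (box_mem_nhds g0 y δ hδ))
  by_contra hcon
  push Not at hcon
  have h1 : ∀ z : X, ∃ V : Set X, IsOpen V ∧ z ∈ V ∧ Vᶜ ∈ (u : Filter X) := by
    intro z
    have := hcon z
    rw [le_nhds_iff] at this
    push Not at this
    obtain ⟨V, hz, hV, hVu⟩ := this
    exact ⟨V, hV, hz, Ultrafilter.compl_mem_iff_notMem.2 hVu⟩
  choose V hVo hVz hVu using h1
  let S : Set X := ⋂ z ∈ G, (V z)ᶜ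
  have hSc : IsClosed S := isClosed_biInter fun z _ => (hVo z).isClosed_compl
  have hSu : S ∈ (u : Filter X) := (Filter.biInter_finset_mem G).2 fun z _ => hVu z
  obtain ⟨φ, hφ, h0, h1⟩ := exists_bump G S hSc (by
    intro x hx hxS
    exact (Set.mem_iInter₂.1 hxS x hx) (hVz x))
  let f : Cp X := ⟨fun x => (Ψ g0).1 x + (|c| + 1) * φ x, (Ψ g0).2.add (continuous_const.mul hφ)⟩
  obtain ⟨g, hg, hgf⟩ := hG f (by
    intro x hx
    simp [f, h0 x hx, hη])
  have h2 := hb g hg
  rw [hgf] at h2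
  obtain ⟨x, hx1, hx2⟩ := (h2.and hSu).exists
  have : f.1 x - (Ψ g0).1 x = |c| + 1 := by simp [f, h1 x hx2]
  rw [this] at hx1
  have h3 := le_abs_self c
  have h4 := le_abs_self (|c| + 1)
  linarith

end Pool.Agent.H835Z.Ksd
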