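import Mathlib
import Pool.Agent.H835Z.KsdA

set_option autoImplicit false

namespace Pool.Agent.H835Z.Ksd

open Topology Filter Set

variable {X Y K : Type} [TopologicalSpace X] [TopologicalSpace Y] [TopologicalSpace K]

omit [TopologicalSpace Y] in
lemma cumul [T2Space K] (e : Y → K) (C : ℕ → ℕ → Set K) (hC : ∀ n m, IsCompact (C n m))
    (hr : Set.range e = ⋂ n, ⋃ m, C n m) :
    ∃ A : ℕ → ℕ → Set K, (∀ k j, IsClosed (A k j)) ∧
      (∀ k (n : ℕ) (b : Fin n → Y), ∃ j, ∀ i, e (b i) ∈ A k j) ∧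
      (∀ z, z ∉ Set.range e → ∃ k0, ∀ k, k0 ≤ k → ∀ j, z ∉ A k j) := by
  refine ⟨fun k j => ⋂ i ∈ Set.Iic k, ⋃ l ∈ Set.Iic j, C i l, ?_, ?_, ?_⟩
  · intro k j
    exact isClosed_biInter fun i _ =>
      (Set.finite_Iic j).isClosed_biUnion fun l _ => (hC i l).isClosed
  · intro k n b
    have h1 : ∀ (i : Fin n) (i' : ℕ), ∃ l, e (b i) ∈ C i' l := by
      intro i i'
      have : e (b i) ∈ ⋂ n, ⋃ m, C n m := by rw [← hr]; exact ⟨_, rfl⟩
      exact Set.mem_iUnion.1 (Set.mem_iInter.1 this i')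
    choose l hl using h1
    refine ⟨(Finset.univ ×ˢ Finset.range (k + 1)).sup (fun p : Fin n × ℕ => l p.1 p.2), ?_⟩
    intro i
    refine Set.mem_iInter₂.2 fun i' hi' => Set.mem_iUnion₂.2 ⟨l i i', ?_, hl i i'⟩
    refine Finset.le_sup (f := fun p : Fin n × ℕ => l p.1 p.2) (b := (i, i')) ?_
    simp only [Finset.mem_product, Finset.mem_univ, Finset.mem_range, true_and]
    exact Nat.lt_succ_of_le hi'
  · intro z hz
    rw [hr, Set.mem_iInter] at hz
    push Not at hz
    obtain ⟨k0, hk0⟩ := hz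
    refine ⟨k0, fun k hk j hzA => hk0 ?_⟩
    obtain ⟨l, _, hl⟩ := Set.mem_iUnion₂.1 (Set.mem_iInter₂.1 hzA k0 hk)
    exact Set.mem_iUnion.2 ⟨l, hl⟩

omit [TopologicalSpace Y] in
lemma select {Z : Type} (w : Ultrafilter Z) (n : ℕ) (P : Z → (n' : ℕ) → (Fin n' → Y) → Prop)
    (h : ∀ᶠ z in (w : Filter Z), ∃ n' ≤ n, ∃ b : Fin n' → Y, P z n' b) :
    ∃ (n' : ℕ) (b : Z → Fin n' → Y), ∀ᶠ z in (w : Filter Z), P z n' (b z) := by
  classical
  have h1 : ∀ᶠ z in (w : Filter Z), ∃ n' : Fin (n + 1), ∃ b : Fin n' → Y, P z n' b := by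
    filter_upwards [h] with z hz
    obtain ⟨n', hn', b, hb⟩ := hz
    exact ⟨⟨n', Nat.lt_succ_of_le hn'⟩, b, hb⟩
  obtain ⟨n', hn'⟩ := Ultrafilter.eventually_exists_iff.1 h1
  obtain ⟨z0, b0, _⟩ := hn'.exists
  refine ⟨n', fun z => if hz : ∃ b : Fin n' → Y, P z n' b then hz.choose else b0, ?_⟩
  filter_upwards [hn'] with z hz
  simp only [dif_pos hz]
  exact hz.choose_spec

omit [TopologicalSpace Y] in
lemma exists_limK [CompactSpace K] {Z : Type} (w : Ultrafilter Z) (c : Z → K) :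
    ∃ β, Tendsto c w (𝓝 β) := by
  obtain ⟨β, _, hβ⟩ := (isCompact_univ (X := K)).ultrafilter_le_nhds (w.map c) (by simp)
  exact ⟨β, hβ⟩

def cadd (g g' : Cp Y) : Cp Y := ⟨fun y => g.1 y + g'.1 y, g.2.add g'.2⟩
def csub (g g' : Cp Y) : Cp Y := ⟨fun y => g.1 y - g'.1 y, g.2.sub g'.2⟩

lemma continuous_cadd {Z : Type} [TopologicalSpace Z] {a b : Z → Cp Y} (ha : Continuous a)
    (hb : Continuous b) : Continuous fun z => cadd (a z) (b z) := by
  refine Continuous.subtype_mk (continuous_pi fun y => ?_) _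
  exact ((continuous_apply y).comp (continuous_subtype_val.comp ha)).add
    ((continuous_apply y).comp (continuous_subtype_val.comp hb))

lemma continuous_csub {Z : Type} [TopologicalSpace Z] {a b : Z → Cp Y} (ha : Continuous a)
    (hb : Continuous b) : Continuous fun z => csub (a z) (b z) := by
  refine Continuous.subtype_mk (continuous_pi fun y => ?_) _
  exact ((continuous_apply y).comp (continuous_subtype_val.comp ha)).sub
    ((continuous_apply y).comp (continuous_subtype_val.comp hb))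

lemma unif_box (U : Set (Cp Y × Cp Y)) (hU : U ∈ uniformity (Cp Y)) :
    ∃ (F : Finset Y) (η : ℝ), 0 < η ∧
      ∀ p : Cp Y × Cp Y, (∀ y ∈ F, |p.1.1 y - p.2.1 y| < η) → p ∈ U := by
  classical
  rw [uniformity_subtype, Filter.mem_comap] at hU
  obtain ⟨M, hM, hMU⟩ := hU
  rw [Pi.uniformity] at hM
  have key : ∃ (F : Finset Y) (η : ℝ), 0 < η ∧
      ∀ q : (Y → ℝ) × (Y → ℝ), (∀ y ∈ F, |q.1 y - q.2 y| < η) → q ∈ M := by
    refine Filter.iInf_sets_induct hM (p := fun M => ∃ (F : Finset Y) (η : ℝ), 0 < η ∧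
      ∀ q : (Y → ℝ) × (Y → ℝ), (∀ y ∈ F, |q.1 y - q.2 y| < η) → q ∈ M) ?_ ?_
    · exact ⟨∅, 1, one_pos, fun _ _ => Set.mem_univ _⟩
    · rintro i s1 s2 hs1 ⟨F, η, hη, hF⟩
      rw [Filter.mem_comap] at hs1
      obtain ⟨t, ht, hts⟩ := hs1
      obtain ⟨ε, hε, hεt⟩ := Metric.mem_uniformity_dist.1 ht
      refine ⟨insert i F, min η ε, lt_min hη hε, fun q hq => ⟨?_, ?_⟩⟩
      · apply hts
        apply hεt
        rw [Real.dist_eq]
        exact (hq i (Finset.mem_insert_self _ _)).trans_le (min_le_right _ _)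
      · exact hF q fun y hy => (hq y (Finset.mem_insert_of_mem hy)).trans_le (min_le_left _ _)
  obtain ⟨F, η, hη, hF⟩ := key
  exact ⟨F, η, hη, fun p hp => hMU (hF (p.1.1, p.2.1) hp)⟩

theorem uniform_case [T35Space X] (Ψ : Cp Y → Cp X) (hU : UniformContinuous Ψ)
    (hO : IsOpenMap Ψ) (hY : IsKSigmaDelta Y) : IsKSigmaDelta X := by
  classical
  obtain ⟨K, _, _, _, e, he, C, hC, hr⟩ := hY
  obtain ⟨A, hAc, hAcov, hAout⟩ := cumul e C hC hr
  let D : Cp Y × Cp Y → Cp X := fun p => csub (Ψ (cadd p.2 p.1)) (Ψ p.2)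
  have hD : Continuous D :=
    continuous_csub (hU.continuous.comp (continuous_cadd continuous_snd continuous_fst))
      (hU.continuous.comp continuous_snd)
  let dl : ℕ → ℝ := fun t => 1 / (((Nat.unpair (Nat.unpair t).2).1 : ℝ) + 1)
  have hdl : ∀ t, 0 < dl t := fun t => by positivity
  let CC : ℕ → ℕ → Set X := fun k t =>
    Cl he.continuous D (dl t) (Nat.unpair t).1 (A k (Nat.unpair (Nat.unpair t).2).2)
  have hfin := Pool.Agent.Helper102.KsdL.of_covers CC
    (fun k t => isClosed_Cl _ _ _ _ _ (hAc _ _)) ?_ ?_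
  · obtain ⟨K', i1, i2, i3, e', he', A', h1, h2⟩ := hfin
    exact ⟨K', i1, i2, i3, e', he', A', h1, h2⟩
  · intro k x
    have hx : UniformContinuous fun g : Cp Y => (Ψ g).1 x :=
      (Pi.uniformContinuous_proj _ x).comp (uniformContinuous_subtype_val.comp hU)
    obtain ⟨F, η, hη, hF⟩ := unif_box _ (hx (Metric.dist_mem_uniformity one_pos))
    obtain ⟨m, hm⟩ := exists_nat_one_div_lt hη
    obtain ⟨j, hj⟩ := hAcov k F.card (fun i => (F.equivFin.symm i : Y))
    refine ⟨Nat.pair F.card (Nat.pair m j), ?_⟩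
    simp only [CC, dl, Nat.unpair_pair]
    refine mem_Cl_of_WitY _ _ _ _ _ x F.card le_rfl _ hj ?_
    intro g g' hg
    have := hF (cadd g' g, g') (by
      intro y hy
      have h1 := hg (F.equivFin ⟨y, hy⟩)
      simp only [Equiv.symm_apply_apply] at h1
      simp only [cadd, add_sub_cancel_left]
      exact h1.trans hm)
    simp only [Set.mem_preimage, Set.mem_setOf_eq, Real.dist_eq] at this
    exact this.le
  · intro u t ht
    have hsel : ∀ k, ∃ (n' : ℕ) (b : X → Fin n' → Y), ∀ᶠ x in (u : Filter X),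
        (∀ i, e (b x i) ∈ A k (Nat.unpair (Nat.unpair (t k)).2).2) ∧ WitY D (dl (t k)) x (b x) := by
      intro k
      refine select u (Nat.unpair (t k)).1
        (fun x n' b => (∀ i, e (b i) ∈ A k (Nat.unpair (Nat.unpair (t k)).2).2) ∧
          WitY D (dl (t k)) x b) ?_
      filter_upwards [ht k] with x hx
      exact WitY_of_mem_Cl he.continuous he.injective D hD _ (hdl _) _ _ x hx
    obtain ⟨n0, b, hb⟩ := hsel 0
    choose β hβ using fun i : Fin n0 => exists_limK u (fun x => e (b x i))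
    let I : Finset (Fin n0) := Finset.univ.filter fun i => β i ∈ Set.range e
    have hI : ∀ i : I, ∃ y, e y = β i := fun i => (Finset.mem_filter.1 i.2).2
    choose y hy using hI
    have hconv : ∀ i : I, Tendsto (fun x => b x i) u (𝓝 (y i)) := by
      intro i
      rw [he.isInducing.tendsto_nhds_iff, hy]
      exact hβ i
    have hk : ∃ k, ∀ i, β i ∉ Set.range e → ∀ j, β i ∉ A k j := by
      have : ∀ i, ∃ k0, β i ∉ Set.range e → ∀ k, k0 ≤ k → ∀ j, β i ∉ A k j := by
        intro i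
        by_cases hi : β i ∈ Set.range e
        · exact ⟨0, fun h => absurd hi h⟩
        · obtain ⟨k0, hk0⟩ := hAout _ hi
          exact ⟨k0, fun _ => hk0⟩
      choose k0 hk0 using this
      exact ⟨Finset.univ.sup k0, fun i hi => hk0 i hi _ (Finset.le_sup (Finset.mem_univ i))⟩
    obtain ⟨k, hk⟩ := hk
    obtain ⟨n1, b', hb'⟩ := hsel k
    obtain ⟨φ, hφ, hφ0, hφ1⟩ := exists_bump ((Finset.univ.filter fun i => β i ∉ Set.range e).image β)
      (A k (Nat.unpair (Nat.unpair (t k)).2).2) (hAc _ _) (by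
        intro z hz
        obtain ⟨i, hi, rfl⟩ := Finset.mem_image.1 hz
        exact hk i (Finset.mem_filter.1 hi).2 _)
    let θ : K → ℝ := fun z => max (2 * min (φ z) 1 - 1) 0
    have hθ : Continuous θ := by fun_prop
    have hθ0 : ∀ z, 0 ≤ θ z := fun z => le_max_right _ _
    have hθ1 : ∀ z, θ z ≤ 1 := fun z => max_le (by linarith [min_le_right (φ z) 1]) zero_le_one
    let g0 : Cp Y := ⟨fun _ => 0, continuous_const⟩
    refine converge_of_bound Ψ g0 (fun N hN => hO.image_mem_nhds hN) u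
      (fun j => y (I.equivFin.symm j)) (dl (t 0)) (hdl _) 2 ?_
    intro g hg
    let g1 : Cp Y := ⟨fun y => θ (e y) * g.1 y, (hθ.comp he.continuous).mul g.2⟩
    have hsmall : ∀ᶠ x in (u : Filter X), ∀ i, |g1.1 (b x i)| < dl (t 0) := by
      rw [Filter.eventually_all]
      intro i
      by_cases hi : β i ∈ Set.range e
      · have hiI : i ∈ I := Finset.mem_filter.2 ⟨Finset.mem_univ _, hi⟩
        have h1 := hg (I.equivFin ⟨i, hiI⟩)
        simp only [Equiv.symm_apply_apply, g0, sub_zero] at h1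
        have h2 : Tendsto (fun x => |g.1 (b x i)|) u (𝓝 |g.1 (y ⟨i, hiI⟩)|) :=
          ((g.2.tendsto _).comp (hconv ⟨i, hiI⟩)).abs
        filter_upwards [h2.eventually (gt_mem_nhds h1)] with x hx
        show |θ (e (b x i)) * g.1 (b x i)| < _
        rw [abs_mul, abs_of_nonneg (hθ0 _)]
        exact (mul_le_of_le_one_left (abs_nonneg _) (hθ1 _)).trans_lt hx
      · have h1 : φ (β i) = 0 :=
          hφ0 _ (Finset.mem_image_of_mem _ (Finset.mem_filter.2 ⟨Finset.mem_univ _, hi⟩))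
        have h2 : Tendsto (fun x => φ (e (b x i))) u (𝓝 (φ (β i))) := (hφ.tendsto _).comp (hβ i)
        rw [h1] at h2
        filter_upwards [h2.eventually (gt_mem_nhds (show (0 : ℝ) < 1 / 2 by norm_num))] with x hx
        show |θ (e (b x i)) * g.1 (b x i)| < _
        have : θ (e (b x i)) = 0 := by
          apply max_eq_right
          have := min_le_left (φ (e (b x i))) 1
          linarith
        rw [this]
        simpa using hdl (t 0)
    filter_upwards [hb, hb', hsmall] with x hx hx' hs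
    have h1 := hx.2 g1 g0 hs
    have h2 := hx'.2 (csub g g1) g1 (by
      intro i
      have h3 : φ (e (b' x i)) = 1 := hφ1 _ (hx'.1 i)
      have h4 : θ (e (b' x i)) = 1 := by simp only [θ, h3]; norm_num
      show |g.1 (b' x i) - θ (e (b' x i)) * g.1 (b' x i)| < _
      rw [h4]
      simpa using hdl (t k))
    have e1 : cadd g0 g1 = g1 := by
      apply Subtype.ext; funext z; simp [cadd, g0]
    have e2 : cadd g1 (csub g g1) = g := by
      apply Subtype.ext; funext z; simp [cadd, csub]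
    simp only [D, e1, e2] at h1 h2
    simp only [csub] at h1 h2
    rw [abs_le] at h1 h2 ⊢
    constructor <;> linarith [h1.1, h1.2, h2.1, h2.2]

end Pool.Agent.H835Z.Ksd
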