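import Mathlib
import Pool.Agent.H835Z.KsdB

set_option autoImplicit false

namespace Pool.Agent.H835Z.Ksd

open Topology Filter Set

variable {X Y K : Type} [TopologicalSpace X] [TopologicalSpace Y] [TopologicalSpace K]

/-- disjointified scheme -/
def Edis (C : List ℕ → Set X) : List ℕ → Set X
  | [] => Set.univ
  | j :: s => (Edis C s ∩ C (j :: s)) \ ⋃ i ∈ Set.Iio j, C (i :: s)

/-- initial segments of a branch, last entry first -/
def seg (σ : ℕ → ℕ) : ℕ → List ℕ
  | 0 => []
  | k + 1 => σ k :: seg σ k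

omit [TopologicalSpace X] in
lemma Edis_unique (C : List ℕ → Set X) (x : X) :
    ∀ s s' : List ℕ, s.length = s'.length → x ∈ Edis C s → x ∈ Edis C s' → s = s'
  | [], [], _, _, _ => rfl
  | [], _ :: _, h, _, _ => by simp at h
  | _ :: _, [], h, _, _ => by simp at h
  | j :: s, j' :: s', h, h1, h2 => by
    have hs : s = s' := Edis_unique C x s s' (by simpa using h) h1.1.1 h2.1.1
    subst hs
    rcases lt_trichotomy j j' with hj | hj | hj
    · exact absurd (Set.mem_iUnion₂.2 ⟨j, hj, h1.1.2⟩) h2.2
    · rw [hj]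
    · exact absurd (Set.mem_iUnion₂.2 ⟨j', hj, h2.1.2⟩) h1.2

lemma of_tree [T35Space X] (hP : ∀ F : Set X, IsClosed F → IsGδ F) (C : List ℕ → Set X)
    (hC : ∀ s, IsClosed (C s)) (h0 : C [] = Set.univ)
    (hs : ∀ s x, x ∈ C s → ∃ j, x ∈ C (j :: s))
    (hb : ∀ (u : Ultrafilter X) (σ : ℕ → ℕ), (∀ k, C (seg σ k) ∈ (u : Filter X)) →
      ∃ x0, (u : Filter X) ≤ 𝓝 x0) : IsKSigmaDelta X := by
  classical
  have hEC : ∀ s, Edis C s ⊆ C s := by
    intro s
    cases s with
    | nil => rw [h0]; exact Set.subset_univ _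
    | cons j s => exact fun x hx => hx.1.2
  have hG : ∀ s, IsGδ (Edis C s)ᶜ := by
    intro s
    induction s with
    | nil => simp [Edis]
    | cons j s ih =>
      have : (Edis C (j :: s))ᶜ =
          ((Edis C s)ᶜ ∪ (C (j :: s))ᶜ) ∪ ⋃ i ∈ Set.Iio j, C (i :: s) := by
        ext x
        simp only [Edis, Set.mem_compl_iff, Set.mem_diff, Set.mem_inter_iff, Set.mem_union]
        tauto
      rw [this]
      exact (ih.union (hC _).isOpen_compl.isGδ).union
        (IsGδ.biUnion (Set.finite_Iio j) fun i _ => hP _ (hC _))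
  have hH : ∀ s, ∃ H : ℕ → Set X, (∀ l, IsClosed (H l)) ∧ Edis C s = ⋃ l, H l := by
    intro s
    obtain ⟨f, hf, hfe⟩ := isGδ_iff_eq_iInter_nat.1 (hG s)
    refine ⟨fun l => (f l)ᶜ, fun l => (hf l).isClosed_compl, ?_⟩
    rw [← Set.compl_iInter, ← hfe, compl_compl]
  choose H hHc hHe using hH
  have hcovE : ∀ k x, ∃ s : List ℕ, s.length = k ∧ x ∈ Edis C s := by
    intro k x
    induction k with
    | zero => exact ⟨[], rfl, Set.mem_univ _⟩
    | succ k ih =>
      obtain ⟨s, hsl, hx⟩ := ih
      have hex := hs s x (hEC s hx)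
      refine ⟨Nat.find hex :: s, by simp [hsl], ⟨hx, Nat.find_spec hex⟩, ?_⟩
      intro hcon
      obtain ⟨i, hi, hxi⟩ := Set.mem_iUnion₂.1 hcon
      exact Nat.find_min hex hi hxi
  let dec : ℕ → List ℕ × ℕ := fun t => Denumerable.ofNat (List ℕ × ℕ) t
  let CC : ℕ → ℕ → Set X := fun k t =>
    if (dec t).1.length = k then H (dec t).1 (dec t).2 else ∅
  have hfin := Pool.Agent.Helper102.KsdL.of_covers CC ?_ ?_ ?_
  · obtain ⟨K', i1, i2, i3, e', he', A', h1, h2⟩ := hfin
    exact ⟨K', i1, i2, i3, e', he', A', h1, h2⟩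
  · intro k t
    simp only [CC]
    split_ifs
    · exact hHc _ _
    · exact isClosed_empty
  · intro k x
    obtain ⟨s, hsl, hx⟩ := hcovE k x
    rw [hHe s] at hx
    obtain ⟨l, hl⟩ := Set.mem_iUnion.1 hx
    refine ⟨Encodable.encode (s, l), ?_⟩
    simp only [CC, dec, Denumerable.ofNat_encode, hsl, if_true]
    exact hl
  · intro u t ht
    have h1 : ∀ k, (dec (t k)).1.length = k ∧ Edis C (dec (t k)).1 ∈ (u : Filter X) := by
      intro k
      have h2 := ht k
      simp only [CC] at h2
      split_ifs at h2 with h3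
      · refine ⟨h3, Filter.mem_of_superset h2 ?_⟩
        rw [hHe]
        exact Set.subset_iUnion _ _
      · exact absurd h2 (Filter.empty_notMem _)
    let σ : ℕ → ℕ := fun k => (dec (t (k + 1))).1.headI
    have h2 : ∀ k, (dec (t k)).1 = seg σ k := by
      intro k
      induction k with
      | zero => exact List.length_eq_zero_iff.1 (h1 0).1
      | succ k ih =>
        obtain ⟨hl, hm⟩ := h1 (k + 1)
        obtain ⟨hl', hm'⟩ := h1 k
        obtain ⟨x, hx1, hx2⟩ := Filter.nonempty_of_mem (Filter.inter_mem hm hm')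
        have hσ : σ k = (dec (t (k + 1))).1.headI := rfl
        cases hd : (dec (t (k + 1))).1 with
        | nil => rw [hd] at hl; simp at hl
        | cons j s =>
          rw [hd] at hl hx1 hσ
          have hs' : s = (dec (t k)).1 :=
            Edis_unique C x _ _ (by rw [hl']; simpa using hl) hx1.1.1 hx2
          simp only [seg, ← ih, hσ, List.headI_cons, hs']
    refine hb u σ fun k => ?_
    rw [← h2 k]
    exact Filter.mem_of_superset (h1 k).2 (hEC _)

/-- the first chosen entry and the compact set attached to a node -/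
def node (A : ℕ → ℕ → Set K) : List ℕ → ℕ × Set K
  | [] => (0, Set.univ)
  | [c] => (c, Set.univ)
  | j :: j' :: s => ((node A (j' :: s)).1, (node A (j' :: s)).2 ∩ A s.length j)

theorem perfect_case [T35Space X] (hP : ∀ F : Set X, IsClosed F → IsGδ F) (Ψ : Cp Y → Cp X)
    (hΨ : Continuous Ψ) (hO : IsOpenMap Ψ) (hY : IsKSigmaDelta Y) : IsKSigmaDelta X := by
  classical
  obtain ⟨K, _, _, _, e, he, C, hC, hr⟩ := hY
  obtain ⟨A, hAc, hAcov, hAout⟩ := cumul e C hC hr
  let g0 : Cp Y := ⟨fun _ => 0, continuous_const⟩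
  let D : Cp Y × Cp Y → Cp X := fun p => csub (Ψ p.1) (Ψ g0)
  have hD : Continuous D := continuous_csub (hΨ.comp continuous_fst) continuous_const
  let dl : ℕ → ℝ := fun c => 1 / (((Nat.unpair c).2 : ℝ) + 1)
  have hdl : ∀ t, 0 < dl t := fun t => by positivity
  let CC : List ℕ → Set X := fun s => if s = [] then Set.univ else
    Cl he.continuous D (dl (node A s).1) (Nat.unpair (node A s).1).1 (node A s).2
  have hnc : ∀ s, IsClosed (node A s).2 := by
    intro s
    induction s with
    | nil => exact isClosed_univ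
    | cons j s ih =>
      cases s with
      | nil => exact isClosed_univ
      | cons j' s => exact ih.inter (hAc _ _)
  refine of_tree hP CC ?_ (by simp [CC]) ?_ ?_
  · intro s
    simp only [CC]
    split_ifs
    · exact isClosed_univ
    · exact isClosed_Cl _ _ _ _ _ (hnc s)
  · intro s x hx
    cases s with
    | nil =>
      have hc : Continuous fun g : Cp Y => |(D (g, g0)).1 x| :=
        (((continuous_apply x).comp (continuous_subtype_val.comp
          (hD.comp (continuous_id.prodMk continuous_const)))).abs)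
      have hN : {g : Cp Y | |(D (g, g0)).1 x| < 1} ∈ 𝓝 g0 :=
        (isOpen_lt hc continuous_const).mem_nhds (by simp [D, csub])
      obtain ⟨F, η, hη, hF⟩ := nhds_Cp g0 _ hN
      obtain ⟨m, hm⟩ := exists_nat_one_div_lt hη
      refine ⟨Nat.pair F.card m, ?_⟩
      simp only [CC, node, dl, Nat.unpair_pair, List.cons_ne_nil, if_false]
      refine mem_Cl_of_WitY _ _ _ _ _ x F.card le_rfl (fun i => (F.equivFin.symm i : Y))
        (fun _ => Set.mem_univ _) ?_
      intro g g' hg
      have := hF g (by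
        intro y hy
        have h1 := hg (F.equivFin ⟨y, hy⟩)
        simp only [Equiv.symm_apply_apply] at h1
        simp only [g0, sub_zero]
        exact h1.trans hm)
      exact le_of_lt this
    | cons j' s =>
      simp only [CC, List.cons_ne_nil, if_false] at hx
      obtain ⟨n', hn', b, hb, hw⟩ :=
        WitY_of_mem_Cl he.continuous he.injective D hD _ (hdl _) _ _ x hx
      obtain ⟨j, hj⟩ := hAcov s.length n' b
      refine ⟨j, ?_⟩
      simp only [CC, List.cons_ne_nil, if_false, node]
      exact mem_Cl_of_WitY _ _ _ _ _ x n' hn' b (fun i => ⟨hb i, hj i⟩) hw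
  · intro u σ hu
    have hlen : ∀ k, (seg σ k).length = k := by
      intro k
      induction k with
      | zero => rfl
      | succ k ih => simp [seg, ih]
    let L : ℕ → Set K := fun k => (node A (seg σ (k + 1))).2
    have hn1 : ∀ k, (node A (seg σ (k + 1))).1 = σ 0 := by
      intro k
      induction k with
      | zero => rfl
      | succ k ih => exact ih
    have hL : ∀ k, L (k + 1) = L k ∩ A k (σ (k + 1)) := by
      intro k
      show (node A (seg σ (k + 1))).2 ∩ A (seg σ k).length (σ (k + 1)) = _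
      rw [hlen]
    have hLa : Antitone L := antitone_nat_of_succ_le fun k => by
      rw [hL]; exact Set.inter_subset_left
    let S : Set (X × ℕ) :=
      {p | p.1 ∈ Cl he.continuous D (dl (σ 0)) (Nat.unpair (σ 0)).1 (L p.2)}
    have hS : ∀ k, Cl he.continuous D (dl (σ 0)) (Nat.unpair (σ 0)).1 (L k) ∈ (u : Filter X) := by
      intro k
      have := hu (k + 1)
      simp only [CC, hn1] at this
      rwa [if_neg (by simp [seg])] at this
    have hne : (((u : Filter X) ×ˢ (atTop : Filter ℕ)) ⊓ 𝓟 S).NeBot := by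
      rw [Filter.inf_principal_neBot_iff]
      intro U hU
      obtain ⟨U1, hU1, U2, hU2, hUU⟩ := Filter.mem_prod_iff.1 hU
      obtain ⟨k, hk⟩ := Filter.nonempty_of_mem hU2
      obtain ⟨x, hx1, hx2⟩ := Filter.nonempty_of_mem (Filter.inter_mem hU1 (hS k))
      exact ⟨(x, k), hUU ⟨hx1, hk⟩, hx2⟩
    let w : Ultrafilter (X × ℕ) := Ultrafilter.of (((u : Filter X) ×ˢ (atTop : Filter ℕ)) ⊓ 𝓟 S)
    have hw : (w : Filter (X × ℕ)) ≤ ((u : Filter X) ×ˢ (atTop : Filter ℕ)) ⊓ 𝓟 S :=
      Ultrafilter.of_le _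
    have hw1 : Tendsto Prod.fst (w : Filter (X × ℕ)) u :=
      Filter.tendsto_fst.mono_left (hw.trans inf_le_left)
    have hw2 : Tendsto Prod.snd (w : Filter (X × ℕ)) atTop :=
      Filter.tendsto_snd.mono_left (hw.trans inf_le_left)
    have hw3 : S ∈ (w : Filter (X × ℕ)) := hw (Filter.mem_inf_of_right (Filter.mem_principal_self _))
    have hwu : (w.map Prod.fst : Filter X) = u := u.unique hw1
    obtain ⟨n', b, hb⟩ := select w (Nat.unpair (σ 0)).1
      (fun p n' b => (∀ i, e (b i) ∈ L p.2) ∧ WitY D (dl (σ 0)) p.1 b) (by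
        filter_upwards [hw3] with p hp
        exact WitY_of_mem_Cl he.continuous he.injective D hD _ (hdl _) _ _ p.1 hp)
    choose β hβ using fun i : Fin n' => exists_limK w (fun p => e (b p i))
    have hβL : ∀ i k, β i ∈ L k := by
      intro i k
      refine (hnc _).mem_of_tendsto (hβ i) ?_
      filter_upwards [hb, hw2.eventually (eventually_ge_atTop k)] with p hp hk
      exact hLa hk (hp.1 i)
    have hβe : ∀ i, ∃ y, e y = β i := by
      intro i
      by_contra hcon
      obtain ⟨k0, hk0⟩ := hAout (β i) hcon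
      have := hβL i (k0 + 1)
      rw [hL] at this
      exact hk0 k0 le_rfl _ this.2
    choose y hy using hβe
    have hconv : ∀ i, Tendsto (fun p => b p i) w (𝓝 (y i)) := by
      intro i
      rw [he.isInducing.tendsto_nhds_iff, hy]
      exact hβ i
    refine converge_of_bound Ψ g0 (fun N hN => hO.image_mem_nhds hN) u y (dl (σ 0)) (hdl _) 1 ?_
    intro g hg
    rw [← hwu]
    show ∀ᶠ p in (w : Filter (X × ℕ)), |(Ψ g).1 p.1 - (Ψ g0).1 p.1| ≤ 1
    have hsmall : ∀ᶠ p in (w : Filter (X × ℕ)), ∀ i, |g.1 (b p i)| < dl (σ 0) := by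
      rw [Filter.eventually_all]
      intro i
      have h1 := hg i
      simp only [g0, sub_zero] at h1
      exact (((g.2.tendsto _).comp (hconv i)).abs).eventually (gt_mem_nhds h1)
    filter_upwards [hb, hsmall] with p hp hs
    exact hp.2 g g0 hs

end Pool.Agent.H835Z.Ksd
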